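import Pool.Agent.Helper96.QT.DefL
import Pool.Agent.Helper12.QT.LapF

/-!
The Laplace transform of `FF l` (the Liouville side) and the identity
`M(x) = sum_{d^2 <= x, (d,q) = 1} mu(d) L(x/d^2)`.
-/

namespace Pool.Agent.QT

open Real Filter Topology MeasureTheory Set DirichletCharacter

private lemma lam_eq63 {n : ℕ} (hn : n ≠ 0) : lam n = ArithmeticFunction.liouville n := by
  rw [ArithmeticFunction.liouville_apply hn]
  rfl

private lemma norm_lam63 (n : ℕ) : ‖((lam n : ℤ) : ℂ)‖ = 1 := by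
  unfold lam
  push_cast
  rw [norm_pow, norm_neg, norm_one, one_pow]

private lemma abs_l63 {q : ℕ} [NeZero q] {χ : DirichletCharacter ℂ q} {a l : ℕ → ℝ} (h : DatL χ a l) (n : ℕ) :
    |l n| ≤ 1 := by
  have h1 : ‖(l n : ℂ)‖ ≤ 1 := by
    rw [h.eql n, norm_mul, norm_lam63, mul_one]
    exact DirichletCharacter.norm_le_one χ _
  rwa [Complex.norm_real, Real.norm_eq_abs] at h1

private lemma abs_mS63 {a : ℕ → ℝ} (ha : ∀ n, |a n| ≤ 1) {x : ℝ} (hx : 0 ≤ x) : |mS a x| ≤ x := by
  unfold mS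
  calc |∑ n ∈ Finset.Icc 1 ⌊x⌋₊, a n| ≤ ∑ n ∈ Finset.Icc 1 ⌊x⌋₊, |a n| := Finset.abs_sum_le_sum_abs _ _
    _ ≤ ∑ n ∈ Finset.Icc 1 ⌊x⌋₊, (1:ℝ) := Finset.sum_le_sum fun n _ => ha n
    _ = (⌊x⌋₊ : ℝ) := by simp
    _ ≤ x := Nat.floor_le hx

private lemma abs_FF63 {a : ℕ → ℝ} (ha : ∀ n, |a n| ≤ 1) (t : ℝ) : |FF a t| ≤ Real.exp (t / 2) := by
  unfold FF
  split_ifs with ht
  · rw [abs_mul, abs_of_pos (Real.exp_pos _)]
    calc Real.exp (-(t / 2)) * |mS a (Real.exp t)| ≤ Real.exp (-(t / 2)) * Real.exp t := by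
          gcongr
          exact abs_mS63 ha (Real.exp_pos t).le
      _ = Real.exp (t / 2) := by
          rw [← Real.exp_add]
          congr 1
          ring
  · rw [abs_zero]
    exact (Real.exp_pos _).le

theorem abs_FFl_le {q : ℕ} [NeZero q] {χ : DirichletCharacter ℂ q} {a l : ℕ → ℝ} (h : DatL χ a l) (t : ℝ) :
    |FF l t| ≤ Real.exp (t / 2) :=
  abs_FF63 (abs_l63 h) t

/-- the Laplace transform for a bounded sequence -/
private lemma laplace63 {a : ℕ → ℝ} (ha : ∀ n, |a n| ≤ 1) {z : ℂ} (hz : 1 / 2 < z.re) :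
    Integrable (fun t : ℝ => Complex.exp (-z * t) * (FF a t : ℂ)) ∧
      (1 / 2 + z) * ∫ t : ℝ, Complex.exp (-z * t) * (FF a t : ℂ) = LSeries (fun n => (a n : ℂ)) (1 / 2 + z) := by
  have hz0 : ∀ t : ℝ, t ∉ Ici (0:ℝ) → Complex.exp (-z * t) * (FF a t : ℂ) = 0 := by
    intro t ht
    have ht' : ¬ (0 ≤ t) := ht
    simp [FF, ht']
  have hmeas : Measurable (fun t : ℝ => Complex.exp (-z * t) * (FF a t : ℂ)) := by
    refine Measurable.mul (by fun_prop) ?_
    exact Complex.measurable_ofReal.comp (measurable_FF a)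
  constructor
  · have hI : Integrable (fun t : ℝ => (Ioi (0:ℝ)).indicator (fun t : ℝ => Real.exp (-(z.re - 1 / 2) * t)) t) := by
      rw [integrable_indicator_iff measurableSet_Ioi]
      exact exp_neg_integrableOn_Ioi 0 (by linarith)
    refine Integrable.mono' hI hmeas.aestronglyMeasurable ?_
    have hne : ∀ᵐ t : ℝ, t ≠ 0 := by
      rw [ae_iff]
      simp
    filter_upwards [hne] with t ht
    rcases lt_or_gt_of_ne ht with h1 | h1
    · rw [hz0 t (by simpa using h1)]
      simp [h1.le]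
    · have hmem : t ∈ Ioi (0:ℝ) := h1
      rw [indicator_of_mem hmem, norm_mul, Complex.norm_exp, Complex.norm_real, Real.norm_eq_abs]
      calc Real.exp (-z * t).re * |FF a t| ≤ Real.exp (-z * t).re * Real.exp (t / 2) := by
            gcongr
            exact abs_FF63 ha t
        _ = Real.exp (-(z.re - 1 / 2) * t) := by
            rw [← Real.exp_add]
            congr 1
            simp
            ring
  · set s : ℂ := 1 / 2 + z with hs
    have hsre : (1:ℝ) < s.re := by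
      rw [hs]
      simp
      linarith
    have hO : (fun n : ℕ => ∑ k ∈ Finset.Icc 1 n, ‖(a k : ℂ)‖) =O[atTop] fun n : ℕ => (n : ℝ) ^ (1:ℝ) := by
      refine Asymptotics.IsBigO.of_bound 1 (Eventually.of_forall fun n => ?_)
      rw [Real.rpow_one, one_mul, Real.norm_eq_abs, Real.norm_eq_abs, abs_of_nonneg (Finset.sum_nonneg fun _ _ => norm_nonneg _),
        abs_of_nonneg (Nat.cast_nonneg n)]
      calc ∑ k ∈ Finset.Icc 1 n, ‖(a k : ℂ)‖ ≤ ∑ k ∈ Finset.Icc 1 n, (1:ℝ) := by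
            refine Finset.sum_le_sum fun k _ => ?_
            rw [Complex.norm_real, Real.norm_eq_abs]
            exact ha k
        _ = n := by simp
    have hL := LSeries_eq_mul_integral' (fun n => (a n : ℂ)) (zero_le_one) hsre hO
    have hsub : ∫ t in Ioi (1 : ℝ), (∑ k ∈ Finset.Icc 1 ⌊t⌋₊, (a k : ℂ)) * (t : ℂ) ^ (-(s + 1)) =
        ∫ t in Ioi (0:ℝ), Complex.exp (-z * t) * (FF a t : ℂ) := by
      have himg : Real.exp '' (Ioi (0:ℝ)) = Ioi 1 := by
        ext x
        constructor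
        · rintro ⟨t, ht, rfl⟩
          exact Real.one_lt_exp_iff.mpr ht
        · intro hx
          have hx1 : (1:ℝ) < x := hx
          exact ⟨Real.log x, Real.log_pos hx1, Real.exp_log (by linarith)⟩
      rw [← himg, integral_image_eq_integral_abs_deriv_smul measurableSet_Ioi
        (fun x _ => (Real.hasDerivAt_exp x).hasDerivWithinAt) Real.exp_injective.injOn]
      refine setIntegral_congr_fun measurableSet_Ioi fun t ht => ?_
      have ht0 : (0:ℝ) ≤ t := le_of_lt ht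
      simp only [FF, if_pos ht0, mS]
      rw [abs_of_pos (Real.exp_pos t), Complex.real_smul]
      have hc : ((Real.exp t : ℝ) : ℂ) ^ (-(s + 1)) = Complex.exp (t * (-(s + 1))) := by
        rw [Complex.cpow_def_of_ne_zero (by exact_mod_cast (Real.exp_pos t).ne'), ← Complex.ofReal_log (Real.exp_pos t).le,
          Real.log_exp]
      rw [hc]
      push_cast
      have he : Complex.exp (-z * t) * Complex.exp (-(t / 2)) = Complex.exp t * Complex.exp (t * (-(s + 1))) := by
        rw [← Complex.exp_add, ← Complex.exp_add]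
        congr 1
        rw [hs]
        ring
      rw [← mul_assoc (Complex.exp (-z * t)), he]
      ring
    have hfull : ∫ t : ℝ, Complex.exp (-z * t) * (FF a t : ℂ) = ∫ t in Ioi (0:ℝ), Complex.exp (-z * t) * (FF a t : ℂ) := by
      rw [← integral_Ici_eq_integral_Ioi, setIntegral_eq_integral_of_forall_compl_eq_zero hz0]
    rw [hfull, ← hsub, ← hL]

/-- the completely multiplicative function `chi lambda n^{-s}` -/
private noncomputable def hom63 {q : ℕ} (χ : DirichletCharacter ℂ q) {s : ℂ} (hs : s ≠ 0) : ℕ →*₀ ℂ where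
  toFun n := ((ArithmeticFunction.liouville n : ℤ) : ℂ) * dirichletSummandHom χ hs n
  map_zero' := by simp
  map_one' := by simp [ArithmeticFunction.liouville_apply_one]
  map_mul' m n := by
    rw [ArithmeticFunction.liouville_apply_mul, map_mul]
    push_cast
    ring

private lemma lseries63 {q : ℕ} [NeZero q] {χ : DirichletCharacter ℂ q} {a l : ℕ → ℝ} (h : DatL χ a l) {s : ℂ}
    (hs : 1 < s.re) :
    LSeries (fun n => (l n : ℂ)) s * LFunction χ s = LFunction (1 : DirichletCharacter ℂ q) (2 * s) := by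
  have hs0 : s ≠ 0 := Complex.ne_zero_of_one_lt_re hs
  have h2s : 1 < (2 * s).re := by
    simp
    linarith
  have hnorm : ∀ n : ℕ, ‖hom63 χ hs0 n‖ ≤ ‖dirichletSummandHom χ hs0 n‖ := by
    intro n
    change ‖((ArithmeticFunction.liouville n : ℤ) : ℂ) * dirichletSummandHom χ hs0 n‖ ≤ _
    rcases eq_or_ne n 0 with rfl | hn
    · simp
    · rw [norm_mul, ← lam_eq63 hn, norm_lam63, one_mul]
  have hsum : Summable (‖hom63 χ hs0 ·‖) :=
    (summable_dirichletSummand χ hs).of_nonneg_of_le (fun _ => norm_nonneg _) hnorm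
  have h1 := EulerProduct.eulerProduct_completely_multiplicative_hasProd hsum
  have hts : ∑' n, hom63 χ hs0 n = LSeries (fun n => (l n : ℂ)) s := by
    unfold LSeries
    refine tsum_congr fun n => ?_
    change ((ArithmeticFunction.liouville n : ℤ) : ℂ) * (χ n * (n : ℂ) ^ (-s)) = _
    rcases eq_or_ne n 0 with rfl | hn
    · simp
    · rw [LSeries.term_of_ne_zero hn, h.eql n, lam_eq63 hn, Complex.cpow_neg, div_eq_mul_inv]
      ring
  rw [hts] at h1
  have h2 := DirichletCharacter.LSeries_eulerProduct_hasProd χ hs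
  have h3 := DirichletCharacter.LSeries_eulerProduct_hasProd (1 : DirichletCharacter ℂ q) h2s
  have h4 := h1.mul h2
  have h5 : (fun p : Nat.Primes => (1 - hom63 χ hs0 (p : ℕ))⁻¹ * (1 - χ (p : ℕ) * ((p : ℕ) : ℂ) ^ (-s))⁻¹) =
      fun p : Nat.Primes => (1 - (1 : DirichletCharacter ℂ q) (p : ℕ) * ((p : ℕ) : ℂ) ^ (-(2 * s)))⁻¹ := by
    funext p
    have e1 : hom63 χ hs0 (p : ℕ) = -(χ (p : ℕ) * ((p : ℕ) : ℂ) ^ (-s)) := by
      change ((ArithmeticFunction.liouville (p : ℕ) : ℤ) : ℂ) * (χ (p : ℕ) * ((p : ℕ) : ℂ) ^ (-s)) = _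
      rw [ArithmeticFunction.liouville_apply p.2.ne_zero, ArithmeticFunction.cardFactors_apply_prime p.2]
      push_cast
      ring
    have e2 : (1 : DirichletCharacter ℂ q) (p : ℕ) = χ (p : ℕ) ^ 2 := by
      rw [← h.dat.sq, MulChar.pow_apply' _ two_ne_zero]
    have e3 : ((p : ℕ) : ℂ) ^ (-(2 * s)) = (((p : ℕ) : ℂ) ^ (-s)) ^ 2 := by
      rw [← Complex.cpow_nat_mul]
      congr 1
      push_cast
      ring
    rw [e1, e2, e3, ← mul_inv]
    congr 1
    ring
  have h6 : HasProd (fun p : Nat.Primes => (1 - hom63 χ hs0 (p : ℕ))⁻¹ * (1 - χ (p : ℕ) * ((p : ℕ) : ℂ) ^ (-s))⁻¹)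
      (LSeries (fun n => (1 : DirichletCharacter ℂ q) n) (2 * s)) := by
    rw [h5]
    exact h3
  have h7 := h4.unique h6
  rw [DirichletCharacter.LFunction_eq_LSeries χ hs, DirichletCharacter.LFunction_eq_LSeries _ h2s]
  exact h7

theorem laplace_L {q : ℕ} [NeZero q] {χ : DirichletCharacter ℂ q} {a l : ℕ → ℝ} (h : DatL χ a l) {z : ℂ} (hz : 1 / 2 < z.re) :
    Integrable (fun t : ℝ => Complex.exp (-z * t) * (FF l t : ℂ)) ∧
      ∫ t : ℝ, Complex.exp (-z * t) * (FF l t : ℂ) = ZZ χ z := by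
  obtain ⟨h1, h2⟩ := laplace63 (abs_l63 h) hz
  refine ⟨h1, ?_⟩
  set s : ℂ := 1 / 2 + z with hs
  have hsre : (1:ℝ) < s.re := by
    rw [hs]
    simp
    linarith
  have hs0 : s ≠ 0 := Complex.ne_zero_of_one_lt_re hsre
  have hz0 : z ≠ 0 := by
    rintro rfl
    simp at hz
    linarith
  have hLF : LFunction χ s ≠ 0 :=
    DirichletCharacter.LFunction_ne_zero_of_one_le_re χ (Or.inl h.dat.ne) hsre.le
  have h3 := lseries63 h hsre
  have h4 : EE q z = z * LFunction (1 : DirichletCharacter ℂ q) (2 * s) := by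
    unfold EE LFunctionTrivChar₁
    have hne : (1 : ℂ) + 2 * z ≠ 1 := by
      intro h0
      apply hz0
      linear_combination h0 / 2
    rw [Function.update_of_ne hne]
    have : (2 : ℂ) * s = 1 + 2 * z := by
      rw [hs]
      ring
    rw [this]
    unfold LFunctionTrivChar
    ring
  unfold ZZ
  rw [h4, ← hs, eq_div_iff (mul_ne_zero hz0 (mul_ne_zero hs0 hLF)), ← h3, ← h2]
  ring

/-- the squarefree indicator is the sum of `mu(d)` over the squares `d^2` dividing `n` -/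
private lemma sq63 {n N : ℕ} (hn : n ≠ 0) (hN : ∀ d : ℕ, d ^ 2 ∣ n → d ≤ N) :
    ∑ d ∈ (Finset.Icc 1 N).filter (fun d => d ^ 2 ∣ n), ArithmeticFunction.moebius d =
      if Squarefree n then 1 else 0 := by
  obtain ⟨m, b, hb, hm⟩ := Nat.sq_mul_squarefree n
  have hb0 : b ≠ 0 := by
    rintro rfl
    exact hn (by rw [← hb]; simp)
  have hm0 : m ≠ 0 := hm.ne_zero
  have hdvd : ∀ d : ℕ, d ^ 2 ∣ n ↔ d ∣ b := by
    intro d
    constructor
    · intro hd
      have hd0 : d ≠ 0 := by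
        rintro rfl
        exact hn (by simpa using hd)
      rw [← Nat.factorization_le_iff_dvd hd0 hb0]
      rw [← Nat.factorization_le_iff_dvd (pow_ne_zero 2 hd0) hn] at hd
      intro r
      have h1 := hd r
      rw [← hb, Nat.factorization_mul (pow_ne_zero 2 hb0) hm0, Nat.factorization_pow, Nat.factorization_pow] at h1
      have h2 := hm.natFactorization_le_one r
      simp only [Finsupp.smul_apply, Finsupp.add_apply, smul_eq_mul] at h1
      omega
    · intro hd
      rw [← hb]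
      exact (pow_dvd_pow_of_dvd hd 2).mul_right m
  have hset : (Finset.Icc 1 N).filter (fun d => d ^ 2 ∣ n) = b.divisors := by
    ext d
    rw [Finset.mem_filter, Finset.mem_Icc, Nat.mem_divisors, hdvd]
    constructor
    · rintro ⟨_, h2⟩
      exact ⟨h2, hb0⟩
    · rintro ⟨h2, _⟩
      exact ⟨⟨Nat.pos_of_dvd_of_pos h2 (Nat.pos_of_ne_zero hb0), hN d ((hdvd d).mpr h2)⟩, h2⟩
  rw [hset]
  have hone : ∑ d ∈ b.divisors, ArithmeticFunction.moebius d = if b = 1 then 1 else 0 := by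
    rw [← ArithmeticFunction.coe_mul_zeta_apply, ArithmeticFunction.moebius_mul_coe_zeta,
      ArithmeticFunction.one_apply]
  rw [hone]
  have hsf : Squarefree n ↔ b = 1 := by
    constructor
    · intro h
      have : b * b ∣ n := by
        rw [← hb, sq]
        exact dvd_mul_right _ _
      exact Nat.isUnit_iff.mp (h b this)
    · rintro rfl
      rw [← hb]
      simpa using hm
  simp only [hsf]

/-- `a n = sum_{d^2 | n, (d,q) = 1} mu(d) l(n/d^2)` -/
private lemma inv63 {q : ℕ} [NeZero q] {χ : DirichletCharacter ℂ q} {a l : ℕ → ℝ} (h : DatL χ a l) {n N : ℕ}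
    (hn : n ≠ 0) (hN : ∀ d : ℕ, d ^ 2 ∣ n → d ≤ N) :
    a n = ∑ d ∈ ((Finset.Icc 1 N).filter (fun d => d.Coprime q)).filter (fun d => d ^ 2 ∣ n),
      ((ArithmeticFunction.moebius d : ℤ) : ℝ) * l (n / d ^ 2) := by
  have hterm : ∀ d ∈ ((Finset.Icc 1 N).filter (fun d => d.Coprime q)).filter (fun d => d ^ 2 ∣ n),
      ((l (n / d ^ 2) : ℝ) : ℂ) = χ n * ((lam n : ℤ) : ℂ) := by
    intro d hd
    rw [Finset.mem_filter, Finset.mem_filter, Finset.mem_Icc] at hd
    obtain ⟨⟨⟨hd1, _⟩, hdq⟩, m, hm⟩ := hd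
    have hd0 : d ^ 2 ≠ 0 := pow_ne_zero 2 (by omega)
    have hm0 : m ≠ 0 := by
      rintro rfl
      exact hn (by simpa using hm)
    have hdiv : n / d ^ 2 = m := by
      rw [hm]
      exact Nat.mul_div_cancel_left m (Nat.pos_of_ne_zero hd0)
    have hχd : χ (d : ZMod q) ^ 2 = 1 := by
      rw [← MulChar.pow_apply' _ two_ne_zero, h.dat.sq]
      exact MulChar.one_apply ((ZMod.isUnit_iff_coprime d q).mpr hdq)
    have hlam : lam n = lam m := by
      rw [lam_eq63 hn, lam_eq63 hm0, hm, ArithmeticFunction.liouville_apply_mul, sq,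
        ArithmeticFunction.liouville_apply_mul, ← lam_eq63 (by omega : d ≠ 0)]
      unfold lam
      rw [← mul_pow]
      simp
    rw [hdiv, h.eql m, hlam, hm]
    push_cast
    rw [map_mul, map_pow, hχd, one_mul]
  apply Complex.ofReal_injective
  push_cast
  rw [h.dat.eq n, Finset.sum_congr rfl fun d hd => by rw [hterm d hd], ← Finset.sum_mul]
  by_cases hnq : n.Coprime q
  · have hset : ((Finset.Icc 1 N).filter (fun d => d.Coprime q)).filter (fun d => d ^ 2 ∣ n) =
        (Finset.Icc 1 N).filter (fun d => d ^ 2 ∣ n) := by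
      ext d
      simp only [Finset.mem_filter]
      constructor
      · rintro ⟨⟨h1, _⟩, h3⟩
        exact ⟨h1, h3⟩
      · rintro ⟨h1, h3⟩
        refine ⟨⟨h1, ?_⟩, h3⟩
        have hd : d ∣ n := (dvd_pow_self d two_ne_zero).trans h3
        exact Nat.Coprime.coprime_dvd_left hd hnq
    rw [hset, ← Int.cast_sum, sq63 hn hN]
    split_ifs with hsf
    · rw [ArithmeticFunction.moebius_apply_of_squarefree hsf]
      unfold lam
      push_cast
      ring
    · rw [ArithmeticFunction.moebius_eq_zero_of_not_squarefree hsf]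
      push_cast
      ring
  · have h0 : χ (n : ZMod q) = 0 :=
      MulChar.map_nonunit _ fun hu => hnq ((ZMod.isUnit_iff_coprime n q).mp hu)
    rw [h0]
    ring

/-- the multiples of `k` up to `x` -/
private lemma mult63 (l : ℕ → ℝ) {x : ℝ} {k : ℕ} (hk : 0 < k) :
    ∑ n ∈ (Finset.Icc 1 ⌊x⌋₊).filter (fun n => k ∣ n), l (n / k) = mS l (x / k) := by
  unfold mS
  rw [Nat.floor_div_natCast]
  symm
  refine Finset.sum_bij' (fun m _ => k * m) (fun n _ => n / k) ?_ ?_ ?_ ?_ ?_
  · intro m hm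
    rw [Finset.mem_Icc] at hm
    rw [Finset.mem_filter, Finset.mem_Icc]
    refine ⟨⟨Nat.mul_pos hk hm.1, ?_⟩, dvd_mul_right _ _⟩
    calc k * m ≤ k * (⌊x⌋₊ / k) := Nat.mul_le_mul_left k hm.2
      _ ≤ ⌊x⌋₊ := Nat.mul_div_le _ _
  · intro n hn
    rw [Finset.mem_filter, Finset.mem_Icc] at hn
    rw [Finset.mem_Icc]
    exact ⟨Nat.div_pos (Nat.le_of_dvd hn.1.1 hn.2) hk, Nat.div_le_div_right hn.1.2⟩
  · intro m _
    exact Nat.mul_div_cancel_left m hk
  · intro n hn
    rw [Finset.mem_filter] at hn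
    exact Nat.mul_div_cancel' hn.2
  · intro m _
    rw [Nat.mul_div_cancel_left m hk]

/-- `M(x) = sum_{d^2 <= x, (d,q) = 1} mu(d) L(x/d^2)` -/
theorem mS_eq_sum {q : ℕ} [NeZero q] {χ : DirichletCharacter ℂ q} {a l : ℕ → ℝ} (h : DatL χ a l) (x : ℝ) (hx : 0 ≤ x) :
    mS a x = ∑ d ∈ (Finset.Icc 1 ⌊Real.sqrt x⌋₊).filter (fun d => d.Coprime q),
      ((ArithmeticFunction.moebius d : ℤ) : ℝ) * mS l (x / (d : ℝ) ^ 2) := by
  have h1 : mS a x = ∑ n ∈ Finset.Icc 1 ⌊x⌋₊,
      ∑ d ∈ ((Finset.Icc 1 ⌊Real.sqrt x⌋₊).filter (fun d => d.Coprime q)).filter (fun d => d ^ 2 ∣ n),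
        ((ArithmeticFunction.moebius d : ℤ) : ℝ) * l (n / d ^ 2) := by
    unfold mS
    refine Finset.sum_congr rfl fun n hn => ?_
    rw [Finset.mem_Icc] at hn
    refine inv63 h (by omega) fun d hd => ?_
    have h2 : d ^ 2 ≤ n := Nat.le_of_dvd (by omega) hd
    have h3 : ((d : ℝ)) ^ 2 ≤ x := by
      calc ((d : ℝ)) ^ 2 = ((d ^ 2 : ℕ) : ℝ) := by push_cast; ring
        _ ≤ (n : ℝ) := by exact_mod_cast h2
        _ ≤ x := (Nat.le_floor_iff hx).mp hn.2
    exact Nat.le_floor (Real.le_sqrt_of_sq_le h3)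
  rw [h1]
  simp only [Finset.sum_filter (fun d => d ^ 2 ∣ _)]
  rw [Finset.sum_comm]
  refine Finset.sum_congr rfl fun d hd => ?_
  rw [Finset.mem_filter, Finset.mem_Icc] at hd
  have hd0 : 0 < d ^ 2 := pow_pos (by omega) 2
  rw [← Finset.sum_filter, ← Finset.mul_sum, mult63 l hd0]
  push_cast
  rfl

end Pool.Agent.QT
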