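import Mathlib

/-!
Block QT3a.  Landau's lemma for Laplace integrals.

`Φ + E`, `E = A e^{t/2}` on `[0, T]`, is nonnegative; `μ`, `ν` are the measures with the densities `Φ + E`, `E`, and the Laplace
integral of `Φ` is the difference of the two moment generating functions of `-t`.
-/

namespace Pool.Agent.QT

open Real Filter Topology MeasureTheory Set DirichletCharacter

open ProbabilityTheory in
/-- The step: the Taylor series at `a + 1` converges beyond `a`. -/
private lemma extend63 {μ : Measure ℝ} (hμ : ∀ᵐ t ∂μ, 0 ≤ t) {a δ : ℝ} (hδ : 0 < δ)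
    (ha : Ioi a ⊆ integrableExpSet (fun t : ℝ => -t) μ) {G : ℂ → ℂ}
    (hG : DifferentiableOn ℂ G (Metric.ball ((a + 1 : ℝ) : ℂ) (1 + δ)))
    (he : G =ᶠ[𝓝 ((a + 1 : ℝ) : ℂ)] complexMGF (fun t : ℝ => -t) μ) :
    a - δ / 2 ∈ integrableExpSet (fun t : ℝ => -t) μ := by
  set X : ℝ → ℝ := fun t => -t with hX
  have hint : ((((a + 1 : ℝ) : ℂ)).re) ∈ interior (integrableExpSet X μ) := by
    rw [Complex.ofReal_re]
    exact interior_maximal ha isOpen_Ioi (show a < a + 1 by linarith)
  have hint' : (a + 1) ∈ interior (integrableExpSet X μ) := by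
    rw [Complex.ofReal_re] at hint; exact hint
  set ρ : ℝ := 1 + δ / 2 with hρ
  have hmem : (((a + 1 : ℝ) : ℂ) - (ρ : ℂ)) ∈ Metric.ball ((a + 1 : ℝ) : ℂ) (1 + δ) := by
    rw [Metric.mem_ball, dist_eq_norm]
    have : ((a + 1 : ℝ) : ℂ) - (ρ : ℂ) - ((a + 1 : ℝ) : ℂ) = ((-ρ : ℝ) : ℂ) := by push_cast; ring
    rw [this, Complex.norm_real, Real.norm_eq_abs, abs_neg, abs_of_pos (by positivity)]
    rw [hρ]; linarith
  have hs := (Complex.hasSum_taylorSeries_on_ball hG hmem).summable
  set M : ℕ → ℝ := fun n => ∫ t, (n.factorial : ℝ)⁻¹ * ((ρ * t) ^ n * Real.exp ((a + 1) * X t)) ∂μ with hM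
  have hsM : Summable M := by
    rw [← Complex.summable_ofReal]
    refine hs.congr fun n => ?_
    rw [he.iteratedDeriv_eq n, iteratedDeriv_complexMGF hint n, hM]
    simp only
    rw [← integral_complex_ofReal]
    have e1 : ((a + 1 : ℝ) : ℂ) - (ρ : ℂ) - ((a + 1 : ℝ) : ℂ) = -(ρ : ℂ) := by ring
    rw [e1, smul_eq_mul, smul_eq_mul, ← integral_const_mul, ← integral_const_mul]
    apply integral_congr_ae
    refine Eventually.of_forall fun t => ?_
    simp only [hX]
    push_cast
    have e2 : (-(ρ : ℂ)) ^ n * (-(t : ℂ)) ^ n = ((ρ : ℂ) * t) ^ n := by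
      rw [← mul_pow]; ring
    calc ((n.factorial : ℂ))⁻¹ * ((-(ρ : ℂ)) ^ n * ((-(t : ℂ)) ^ n * Complex.exp (((a : ℂ) + 1) * -(t : ℂ))))
        = ((n.factorial : ℂ))⁻¹ * (((-(ρ : ℂ)) ^ n * (-(t : ℂ)) ^ n) * Complex.exp (((a : ℂ) + 1) * -(t : ℂ))) := by ring
      _ = _ := by rw [e2]
  have hterm : ∀ n : ℕ, Integrable (fun t => (n.factorial : ℝ)⁻¹ * ((ρ * t) ^ n * Real.exp ((a + 1) * X t))) μ := by
    intro n
    have h := integrable_pow_mul_exp_of_mem_interior_integrableExpSet hint' n
    have e : (fun t => (n.factorial : ℝ)⁻¹ * ((ρ * t) ^ n * Real.exp ((a + 1) * X t))) =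
        fun t => ((n.factorial : ℝ)⁻¹ * (-ρ) ^ n) * (X t ^ n * Real.exp ((a + 1) * X t)) := by
      funext t
      simp only [hX]
      have e2 : (-ρ) ^ n * (-t) ^ n = (ρ * t) ^ n := by
        rw [← mul_pow]; ring
      rw [← e2]; ring
    rw [e]
    exact h.const_mul _
  have hnn : ∀ n : ℕ, 0 ≤ᵐ[μ] (fun t => (n.factorial : ℝ)⁻¹ * ((ρ * t) ^ n * Real.exp ((a + 1) * X t))) := by
    intro n
    filter_upwards [hμ] with t ht
    have : 0 ≤ ρ * t := mul_nonneg (by positivity) ht
    simp only [Pi.zero_apply]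
    positivity
  change Integrable (fun t => Real.exp ((a - δ / 2) * X t)) μ
  rw [← lintegral_ofReal_ne_top_iff_integrable (by fun_prop) (Eventually.of_forall fun t => (Real.exp_pos _).le)]
  have e1 : ∫⁻ t, ENNReal.ofReal (Real.exp ((a - δ / 2) * X t)) ∂μ =
      ∫⁻ t, ∑' n : ℕ, ENNReal.ofReal ((n.factorial : ℝ)⁻¹ * ((ρ * t) ^ n * Real.exp ((a + 1) * X t))) ∂μ := by
    apply lintegral_congr_ae
    filter_upwards [hμ] with t ht
    have h0 : 0 ≤ ρ * t := mul_nonneg (by positivity) ht
    have hsum : HasSum (fun n : ℕ => (n.factorial : ℝ)⁻¹ * ((ρ * t) ^ n * Real.exp ((a + 1) * X t)))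
        (Real.exp (ρ * t) * Real.exp ((a + 1) * X t)) := by
      have h := (NormedSpace.expSeries_div_hasSum_exp (ρ * t)).mul_right (Real.exp ((a + 1) * X t))
      rw [← Real.exp_eq_exp_ℝ] at h
      refine h.congr_fun ?_
      intro n
      ring
    rw [← ENNReal.ofReal_tsum_of_nonneg (fun n => by positivity) hsum.summable, hsum.tsum_eq, ← Real.exp_add]
    congr 2
    simp only [hX, hρ]
    ring
  rw [e1, lintegral_tsum (fun n => by fun_prop)]
  have e2 : ∀ n : ℕ, ∫⁻ t, ENNReal.ofReal ((n.factorial : ℝ)⁻¹ * ((ρ * t) ^ n * Real.exp ((a + 1) * X t))) ∂μ =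
      ENNReal.ofReal (M n) := fun n => (ofReal_integral_eq_lintegral_ofReal (hterm n) (hnn n)).symm
  simp only [e2]
  exact hsM.tsum_ofReal_ne_top

open ProbabilityTheory in
theorem landau_abs {Φ : ℝ → ℝ} (hm : Measurable Φ) (h0 : ∀ t < 0, Φ t = 0) {t₁ A : ℝ} (hpos : ∀ t, t₁ ≤ t → 0 ≤ Φ t)
    (hA : ∀ t, |Φ t| ≤ A * Real.exp (t / 2)) {P Q : ℂ → ℂ} (hP : Differentiable ℂ P) (hQ : Differentiable ℂ Q)
    (hPQ : ∀ z : ℂ, 1 / 2 < z.re → (∫ t : ℝ, Complex.exp (-z * t) * (Φ t : ℂ)) * P z = Q z)
    (hz : ∀ z : ℂ, 0 < z.re → P z = 0 → Q z ≠ 0) {a₀ : ℝ} (ha₀ : 0 ≤ a₀) (ha : ∀ x : ℝ, a₀ < x → P x ≠ 0) :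
    (∀ x : ℝ, a₀ < x → Integrable (fun t : ℝ => Real.exp (-(x * t)) * Φ t)) ∧
      ∀ z : ℂ, a₀ < z.re → P z ≠ 0 ∧ ∫ t : ℝ, Complex.exp (-z * t) * (Φ t : ℂ) = Q z / P z := by
  have hA0 : 0 ≤ A := by
    have h1 := (abs_nonneg _).trans (hA 0)
    simpa using h1
  set T : ℝ := max t₁ 0 with hT
  set E : ℝ → ℝ := (Icc 0 T).indicator (fun t => A * Real.exp (t / 2)) with hE
  set Φ2 : ℝ → ℝ := fun t => Φ t + E t with hΦ2
  have hEm : Measurable E := Measurable.indicator (by fun_prop) measurableSet_Icc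
  have hE0 : ∀ t, 0 ≤ E t := fun t => indicator_nonneg (fun t _ => by positivity) t
  have hΦ2m : Measurable Φ2 := hm.add hEm
  have hΦ2n : ∀ t < 0, Φ2 t = 0 := by
    intro t ht
    simp only [hΦ2, hE]
    rw [h0 t ht, indicator_of_notMem (fun h => not_le.mpr ht h.1), add_zero]
  have hΦ20 : ∀ t, 0 ≤ Φ2 t := by
    intro t
    rcases lt_or_ge t 0 with ht | ht
    · rw [hΦ2n t ht]
    · rcases le_or_gt t T with htT | htT
      · simp only [hΦ2, hE]
        rw [indicator_of_mem (show t ∈ Icc 0 T from ⟨ht, htT⟩)]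
        have := (abs_le.mp (hA t)).1
        linarith
      · exact add_nonneg (hpos t ((le_max_left _ _).trans htT.le)) (hE0 t)
  set μ : Measure ℝ := volume.withDensity (fun t => ENNReal.ofReal (Φ2 t)) with hμ
  set ν : Measure ℝ := volume.withDensity (fun t => ENNReal.ofReal (E t)) with hν
  set X : ℝ → ℝ := fun t => -t with hX
  have hμ0 : ∀ᵐ t ∂μ, 0 ≤ t := by
    rw [hμ, ae_withDensity_iff (by fun_prop)]
    refine Eventually.of_forall fun t ht => ?_
    by_contra hcon
    push Not at hcon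
    apply ht
    rw [hΦ2n t hcon, ENNReal.ofReal_zero]
  -- integrability
  have hEint : ∀ s : ℝ, Integrable (fun t => Real.exp (-(s * t)) * E t) := by
    intro s
    have e : (fun t => Real.exp (-(s * t)) * E t) =
        (Icc 0 T).indicator (fun t => Real.exp (-(s * t)) * (A * Real.exp (t / 2))) := by
      funext t
      simp only [hE]
      by_cases ht : t ∈ Icc 0 T
      · rw [indicator_of_mem ht, indicator_of_mem ht]
      · rw [indicator_of_notMem ht, indicator_of_notMem ht, mul_zero]
    rw [e, integrable_indicator_iff measurableSet_Icc]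
    exact (Continuous.continuousOn (by fun_prop)).integrableOn_Icc
  have hS : ∀ s : ℝ, s ∈ integrableExpSet X μ ↔ Integrable (fun t => Real.exp (-(s * t)) * Φ t) := by
    intro s
    have e1 : s ∈ integrableExpSet X μ ↔ Integrable (fun t => Real.exp (-(s * t)) * Φ2 t) := by
      change Integrable (fun t => Real.exp (s * X t)) μ ↔ _
      rw [hμ, integrable_withDensity_iff (by fun_prop) (Eventually.of_forall fun t => ENNReal.ofReal_lt_top)]
      have : (fun t => Real.exp (s * X t) * (ENNReal.ofReal (Φ2 t)).toReal) = fun t => Real.exp (-(s * t)) * Φ2 t := by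
        funext t
        rw [ENNReal.toReal_ofReal (hΦ20 t)]
        simp only [hX, mul_neg]
      rw [this]
    rw [e1]
    constructor
    · intro h
      have h2 := h.sub (hEint s)
      refine h2.congr (Eventually.of_forall fun t => ?_)
      simp only [Pi.sub_apply, hΦ2]
      ring
    · intro h
      have h2 := h.add (hEint s)
      refine h2.congr (Eventually.of_forall fun t => ?_)
      simp only [Pi.add_apply, hΦ2]
      ring
  have hSν : ∀ s : ℝ, s ∈ integrableExpSet X ν := by
    intro s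
    change Integrable (fun t => Real.exp (s * X t)) ν
    rw [hν, integrable_withDensity_iff (by fun_prop) (Eventually.of_forall fun t => ENNReal.ofReal_lt_top)]
    have : (fun t => Real.exp (s * X t) * (ENNReal.ofReal (E t)).toReal) = fun t => Real.exp (-(s * t)) * E t := by
      funext t
      rw [ENNReal.toReal_ofReal (hE0 t)]
      simp only [hX, mul_neg]
    rw [this]
    exact hEint s
  have hup : ∀ s s' : ℝ, s ≤ s' → s ∈ integrableExpSet X μ → s' ∈ integrableExpSet X μ := by
    intro s s' hss h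
    change Integrable (fun t => Real.exp (s * X t)) μ at h
    change Integrable (fun t => Real.exp (s' * X t)) μ
    refine h.mono' (by fun_prop) ?_
    filter_upwards [hμ0] with t ht
    rw [Real.norm_of_nonneg (Real.exp_pos _).le]
    apply Real.exp_le_exp.mpr
    simp only [hX]
    nlinarith
  have hhalf : ∀ s : ℝ, 1 / 2 < s → s ∈ integrableExpSet X μ := by
    intro s hs
    rw [hS s]
    have hi : Integrable ((Ioi (0:ℝ)).indicator (fun t => A * Real.exp (-(s - 1 / 2) * t))) := by
      rw [integrable_indicator_iff measurableSet_Ioi]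
      exact (exp_neg_integrableOn_Ioi 0 (by linarith : (0:ℝ) < s - 1 / 2)).const_mul A
    have h00 : ∀ᵐ t : ℝ, t ≠ 0 := by
      rw [ae_iff]; simp
    refine hi.mono' (by fun_prop) ?_
    filter_upwards [h00] with t ht0
    rw [norm_mul, Real.norm_of_nonneg (Real.exp_pos _).le, Real.norm_eq_abs]
    rcases lt_or_gt_of_ne ht0 with ht | ht
    · rw [h0 t ht, abs_zero, mul_zero]
      exact indicator_nonneg (fun t _ => by positivity) t
    · rw [indicator_of_mem (show t ∈ Ioi (0:ℝ) from ht)]
      calc Real.exp (-(s * t)) * |Φ t| ≤ Real.exp (-(s * t)) * (A * Real.exp (t / 2)) := by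
            gcongr; exact hA t
        _ = A * (Real.exp (-(s * t)) * Real.exp (t / 2)) := by ring
        _ = A * Real.exp (-(s - 1 / 2) * t) := by rw [← Real.exp_add]; congr 2; ring
        _ ≤ _ := le_rfl
  -- the Laplace integral
  set D : ℂ → ℂ := fun z => complexMGF X μ z - complexMGF X ν z with hD
  have hLD : ∀ z : ℂ, z.re ∈ integrableExpSet X μ → ∫ t : ℝ, Complex.exp (-z * t) * (Φ t : ℂ) = D z := by
    intro z hzS
    have hexpn : ∀ t : ℝ, ‖Complex.exp (-z * t)‖ = Real.exp (-(z.re * t)) := by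
      intro t
      rw [Complex.norm_exp]
      congr 1
      simp
    have i1 : Integrable (fun t : ℝ => Complex.exp (-z * t) * (Φ t : ℂ)) := by
      refine ((hS z.re).mp hzS).norm.mono' (by fun_prop) (Eventually.of_forall fun t => ?_)
      rw [norm_mul, hexpn, Complex.norm_real, norm_mul, Real.norm_of_nonneg (Real.exp_pos _).le]
    have i2 : Integrable (fun t : ℝ => Complex.exp (-z * t) * (E t : ℂ)) := by
      refine (hEint z.re).norm.mono' (by fun_prop) (Eventually.of_forall fun t => ?_)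
      rw [norm_mul, hexpn, Complex.norm_real, norm_mul, Real.norm_of_nonneg (Real.exp_pos _).le]
    have e1 : complexMGF X μ z = ∫ t : ℝ, (Complex.exp (-z * t) * (Φ t : ℂ) + Complex.exp (-z * t) * (E t : ℂ)) := by
      unfold complexMGF
      rw [hμ, integral_withDensity_eq_integral_toReal_smul (by fun_prop)
        (Eventually.of_forall fun t => ENNReal.ofReal_lt_top)]
      congr 1
      funext t
      rw [ENNReal.toReal_ofReal (hΦ20 t), Complex.real_smul]
      simp only [hX, hΦ2]
      push_cast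
      have : z * -(t : ℂ) = -z * t := by ring
      rw [this]
      ring
    have e2 : complexMGF X ν z = ∫ t : ℝ, Complex.exp (-z * t) * (E t : ℂ) := by
      unfold complexMGF
      rw [hν, integral_withDensity_eq_integral_toReal_smul (by fun_prop)
        (Eventually.of_forall fun t => ENNReal.ofReal_lt_top)]
      congr 1
      funext t
      rw [ENNReal.toReal_ofReal (hE0 t), Complex.real_smul]
      simp only [hX]
      push_cast
      have : z * -(t : ℂ) = -z * t := by ring
      rw [this]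
      ring
    simp only [hD]
    rw [e1, e2, integral_add i1 i2, add_sub_cancel_right]
  have hνan : ∀ z : ℂ, AnalyticAt ℂ (complexMGF X ν) z := by
    intro z
    apply analyticAt_complexMGF
    have : integrableExpSet X ν = univ := eq_univ_of_forall hSν
    rw [this, interior_univ]
    exact mem_univ _
  have hDan : ∀ z : ℂ, z.re ∈ interior (integrableExpSet X μ) → AnalyticAt ℂ D z := fun z hz =>
    (analyticAt_complexMGF hz).sub (hνan z)
  have hid : ∀ a : ℝ, 0 ≤ a → Ioi a ⊆ integrableExpSet X μ → ∀ z : ℂ, a < z.re → D z * P z = Q z := by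
    intro a ha0 haS
    have hopen : IsOpen {z : ℂ | a < z.re} := isOpen_lt continuous_const Complex.continuous_re
    have hint : ∀ z : ℂ, a < z.re → z.re ∈ interior (integrableExpSet X μ) := fun z hz =>
      interior_maximal haS isOpen_Ioi hz
    have h1 : AnalyticOnNhd ℂ (fun z => D z * P z) {z : ℂ | a < z.re} := fun z hz =>
      (hDan z (hint z hz)).mul (hP.analyticAt z)
    have h2 : AnalyticOnNhd ℂ Q {z : ℂ | a < z.re} := fun z _ => hQ.analyticAt z
    have hpre : IsPreconnected {z : ℂ | a < z.re} := (convex_halfSpace_re_gt a).isPreconnected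
    have hmem : ((a + 1 : ℝ) : ℂ) ∈ {z : ℂ | a < z.re} := by
      simp only [mem_ofPred_eq, Complex.ofReal_re]; linarith
    have hev : (fun z => D z * P z) =ᶠ[𝓝 ((a + 1 : ℝ) : ℂ)] Q := by
      have hopen2 : IsOpen {z : ℂ | a + 1 / 2 < z.re} := isOpen_lt continuous_const Complex.continuous_re
      filter_upwards [hopen2.mem_nhds (show ((a + 1 : ℝ) : ℂ) ∈ {z : ℂ | a + 1 / 2 < z.re} by
        simp only [mem_ofPred_eq, Complex.ofReal_re]; linarith)] with z hz
      have hz' : a + 1 / 2 < z.re := hz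
      rw [← hLD z (haS (show a < z.re by linarith))]
      exact hPQ z (by linarith)
    exact fun z hz => h1.eqOn_of_preconnected_of_eventuallyEq h2 hpre hmem hev hz
  have hPne : ∀ a : ℝ, 0 ≤ a → Ioi a ⊆ integrableExpSet X μ → ∀ z : ℂ, a < z.re → P z ≠ 0 := by
    intro a ha0 haS z hza hP0
    have h1 := hid a ha0 haS z hza
    rw [hP0, mul_zero] at h1
    exact hz z (by linarith) hP0 h1.symm
  -- the half-plane of convergence
  have hall : Ioi a₀ ⊆ integrableExpSet X μ := by
    by_contra hcon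
    rw [not_subset] at hcon
    obtain ⟨x1, hx1, hx1S⟩ := hcon
    have hx1' : a₀ < x1 := hx1
    have hbdd : BddBelow (integrableExpSet X μ) := by
      refine ⟨x1, fun s hs => ?_⟩
      by_contra hlt
      push Not at hlt
      exact hx1S (hup s x1 hlt.le hs)
    have hne : (integrableExpSet X μ).Nonempty := ⟨1, hhalf 1 (by norm_num)⟩
    set a : ℝ := sInf (integrableExpSet X μ) with hadef
    have hax1 : x1 ≤ a := by
      apply le_csInf hne
      intro s hs
      by_contra hlt
      push Not at hlt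
      exact hx1S (hup s x1 hlt.le hs)
    have haS : Ioi a ⊆ integrableExpSet X μ := by
      intro s hs
      obtain ⟨s', hs', hlt⟩ := exists_lt_of_csInf_lt hne (show sInf (integrableExpSet X μ) < s from hs)
      exact hup s' s hlt.le hs'
    have ha0 : 0 ≤ a := by linarith
    have hPn := hPne a ha0 haS
    have hPa : P a ≠ 0 := ha a (by linarith)
    have hKU : Metric.closedBall ((a + 1 : ℝ) : ℂ) 1 ⊆ {z : ℂ | P z ≠ 0} := by
      intro z hzK
      rw [Metric.mem_closedBall, dist_eq_norm] at hzK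
      rcases lt_or_ge a z.re with h | h
      · exact hPn z h
      · have h1 := Complex.sq_norm (z - ((a + 1 : ℝ) : ℂ))
        rw [Complex.normSq_apply] at h1
        have h2 : ‖z - ((a + 1 : ℝ) : ℂ)‖ ^ 2 ≤ 1 := by
          calc ‖z - ((a + 1 : ℝ) : ℂ)‖ ^ 2 ≤ 1 ^ 2 := pow_le_pow_left₀ (norm_nonneg _) hzK 2
            _ = 1 := one_pow 2
        rw [h1, Complex.sub_re, Complex.sub_im, Complex.ofReal_re, Complex.ofReal_im] at h2
        have h3 : z.im = 0 := by nlinarith [sq_nonneg z.im, sq_nonneg (z.re - a)]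
        have h4 : z.re = a := by nlinarith [sq_nonneg z.im, sq_nonneg (z.re - a)]
        have h5 : z = (a : ℂ) := Complex.ext (by simp [h4]) (by simp [h3])
        rw [h5]
        exact hPa
    have hU : IsOpen {z : ℂ | P z ≠ 0} := isOpen_ne_fun hP.continuous continuous_const
    obtain ⟨δ, hδ, hδU⟩ := (isCompact_closedBall ((a + 1 : ℝ) : ℂ) 1).exists_cthickening_subset_open hU hKU
    rw [cthickening_closedBall hδ.le zero_le_one] at hδU
    have hδU' : Metric.closedBall ((a + 1 : ℝ) : ℂ) (1 + δ) ⊆ {z : ℂ | P z ≠ 0} := by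
      have hrad : (1 : ℝ) + δ = δ + 1 := add_comm _ _
      rw [hrad]
      exact hδU
    have hGd : DifferentiableOn ℂ (fun z => Q z / P z + complexMGF X ν z) (Metric.ball ((a + 1 : ℝ) : ℂ) (1 + δ)) := by
      intro z hz
      apply DifferentiableAt.differentiableWithinAt
      have hz' : P z ≠ 0 := hδU' (Metric.ball_subset_closedBall hz)
      exact ((hQ z).div (hP z) hz').add (hνan z).differentiableAt
    have hGe : (fun z => Q z / P z + complexMGF X ν z) =ᶠ[𝓝 ((a + 1 : ℝ) : ℂ)] complexMGF X μ := by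
      have hopen : IsOpen {z : ℂ | a < z.re} := isOpen_lt continuous_const Complex.continuous_re
      filter_upwards [hopen.mem_nhds (show ((a + 1 : ℝ) : ℂ) ∈ {z : ℂ | a < z.re} by
        simp only [mem_ofPred_eq, Complex.ofReal_re]; linarith)] with z hza
      have h1 := hid a ha0 haS z hza
      have h2 : Q z / P z = D z := by
        rw [← h1, mul_div_cancel_right₀ _ (hPn z hza)]
      rw [h2]
      simp only [hD, sub_add_cancel]
    have hmem := extend63 hμ0 hδ haS hGd hGe
    have := csInf_le hbdd hmem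
    rw [← hadef] at this
    linarith
  refine ⟨fun x hx => (hS x).mp (hall hx), fun z hza => ?_⟩
  have h1 := hid a₀ ha₀ hall z hza
  have h2 := hPne a₀ ha₀ hall z hza
  refine ⟨h2, ?_⟩
  rw [hLD z (hall hza), ← h1, mul_div_cancel_right₀ _ h2]

end Pool.Agent.QT
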